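import Pool.Agent.H1.CA.TarP

set_option linter.unusedVariables false

open Ordinal Order Set
open scoped ZFSet

namespace CAA

open SF

theorem pa_ord {m : Ordinal.{0}} {q y : V} (h : q ⊆ m.toZFSet) (hy : y ∈ q) :
    ∃ a < m, a.toZFSet = y := mem_toZFSet_iff.1 (h hy)

theorem pa_tr {a b c : Ordinal.{0}} {z y : V} (h : z ∈ y) (hy : y ∈ c.toZFSet ∨ y = c.toZFSet) :
    z ∈ c.toZFSet := by
  rcases hy with hy | rfl
  · obtain ⟨b, hb, rfl⟩ := mem_toZFSet_iff.1 hy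
    obtain ⟨a, ha, rfl⟩ := mem_toZFSet_iff.1 h
    exact toZFSet_mem_toZFSet_iff.2 (ha.trans hb)
  · exact h

theorem pa_tri (a b : Ordinal.{0}) :
    a.toZFSet ∈ b.toZFSet ∨ a.toZFSet = b.toZFSet ∨ b.toZFSet ∈ a.toZFSet := by
  rcases lt_trichotomy a b with h | h | h
  · exact Or.inl (toZFSet_mem_toZFSet_iff.2 h)
  · exact Or.inr (Or.inl (by rw [h]))
  · exact Or.inr (Or.inr (toZFSet_mem_toZFSet_iff.2 h))

theorem pa_tree (m : Ordinal.{0}) (s q q' : V) (hs : s ⊆ m.toZFSet) (h : Ee s q) (h' : Ee s q') :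
    Ee q q' ∨ Ee q' q := by
  by_cases hc : q' ⊆ q
  · exact Or.inl ⟨hc, fun x hx y hy hxy => h'.2 x (h.1 hx) y hy hxy⟩
  · right
    obtain ⟨x, hx', hx⟩ : ∃ x ∈ q', x ∉ q := by
      by_contra hcon
      push Not at hcon
      exact hc fun x hx => hcon x hx
    have hsub : q ⊆ q' := by
      intro y hy
      obtain ⟨a, ha, rfl⟩ := pa_ord hs (h'.1 hx')
      obtain ⟨b, hb, rfl⟩ := pa_ord hs (h.1 hy)
      rcases pa_tri a b with h1 | h1 | h1
      · exact absurd (h.2 _ (h'.1 hx') _ hy h1) hx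
      · exact absurd (h1 ▸ hy) hx
      · exact h'.2 _ (h.1 hy) _ hx' h1
    exact ⟨hsub, fun z hz y hy hzy => h.2 z (h'.1 hz) y hy hzy⟩

theorem pa_ins (m x : Ordinal.{0}) (e q : V) (hq : IsQ m.toZFSet e q) (hx : x < m)
    (hxe : x.toZFSet ∉ e) (hy : ∀ y ∈ q, y ∈ x.toZFSet) :
    IsQ m.toZFSet e (insert x.toZFSet q) ∧ Ee (insert x.toZFSet q) q := by
  have irr : ∀ a b : V, a ∈ b → b ∉ a := fun a b h h' => ZFSet.mem_asymm h h'
  refine ⟨⟨?_, Or.inr ⟨x.toZFSet, ?_, ?_⟩, ?_, ?_⟩, ?_, ?_⟩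
  · intro z hz
    rcases ZFSet.mem_insert_iff.1 hz with rfl | hz
    · exact toZFSet_mem_toZFSet_iff.2 hx
    · exact hq.sub hz
  · exact ZFSet.mem_insert_iff.2 (Or.inl rfl)
  · intro z hz
    rcases ZFSet.mem_insert_iff.1 hz with rfl | hz
    · exact Or.inr rfl
    · exact Or.inl (hy z hz)
  · intro d hd hd0 hw
    have hxd : x.toZFSet ∉ d := by
      intro h
      obtain ⟨y, hyq, hxy, hyd⟩ := hw _ h
      rcases ZFSet.mem_insert_iff.1 hyq with rfl | hyq
      · exact ZFSet.mem_irrefl _ hxy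
      · exact irr _ _ hxy (hy y hyq)
    refine ZFSet.mem_insert_iff.2 (Or.inr (hq.cl d hd hd0 fun z hz => ?_))
    obtain ⟨y, hyq, hxy, hyd⟩ := hw z hz
    rcases ZFSet.mem_insert_iff.1 hyq with rfl | hyq
    · exact absurd hyd hxd
    · exact ⟨y, hyq, hxy, hyd⟩
  · intro z hz
    rcases ZFSet.mem_insert_iff.1 hz with rfl | hz
    · exact hxe
    · exact hq.dj z hz
  · intro z hz
    exact ZFSet.mem_insert_iff.2 (Or.inr hz)
  · intro z hz y hyq hzy
    rcases ZFSet.mem_insert_iff.1 hz with rfl | hz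
    · exact absurd (hy y hyq) (irr _ _ hzy)
    · exact hz

theorem pa_swap (m x : Ordinal.{0}) (e q0 q1 : V) (h0 : IsQ m.toZFSet e q0)
    (h1 : IsQ m.toZFSet e q1) (hx0 : x.toZFSet ∈ q0) (hx1 : x.toZFSet ∈ q1)
    (hy0 : ∀ y ∈ q0, y ∈ x.toZFSet ∨ y = x.toZFSet)
    (hy1 : ∀ y ∈ q1, y ∈ x.toZFSet ∨ y = x.toZFSet)
    (q : V) (hq : IsQ m.toZFSet e q) (he : Ee q q0) :
      IsQ m.toZFSet e (q1 ∪ (q \ q0)) ∧ Ee (q1 ∪ (q \ q0)) q1 ∧
      (q1 ∪ (q \ q0)) \ q1 = q \ q0 ∧ q0 ∪ (q \ q0) = q ∧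
      ∀ q', IsQ m.toZFSet e q' → Ee q' q0 →
        (Ee q q' ↔ Ee (q1 ∪ (q \ q0)) (q1 ∪ (q' \ q0))) := by
  have irr : ∀ a b : V, a ∈ b → b ∉ a := fun a b h h' => ZFSet.mem_asymm h h'
  -- elements of `q \ q0` are larger than `x`
  have key : ∀ q, IsQ m.toZFSet e q → Ee q q0 → ∀ y, y ∈ q \ q0 → x.toZFSet ∈ y := by
    intro q hq he y hy
    rw [ZFSet.mem_sdiff] at hy
    obtain ⟨b, hb, rfl⟩ := pa_ord hq.sub hy.1
    rcases pa_tri x b with h | h | h
    · exact h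
    · exact absurd (h ▸ hx0) hy.2
    · exact absurd (he.2 _ hy.1 _ hx0 h) hy.2
  -- elements larger than `x` are not in `q0`, `q1`
  have big0 : ∀ y, x.toZFSet ∈ y → y ∉ q0 := by
    intro y hxy hy
    rcases hy0 y hy with h | rfl
    · exact irr _ _ hxy h
    · exact ZFSet.mem_irrefl _ hxy
  have big1 : ∀ y, x.toZFSet ∈ y → y ∉ q1 := by
    intro y hxy hy
    rcases hy1 y hy with h | rfl
    · exact irr _ _ hxy h
    · exact ZFSet.mem_irrefl _ hxy
  have K := key q hq he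
  have htrans : ∀ z y : V, y ∈ m.toZFSet → x.toZFSet ∈ z → z ∈ y → x.toZFSet ∈ y := by
    intro z y hy hxz hzy
    obtain ⟨b, hb, rfl⟩ := mem_toZFSet_iff.1 hy
    obtain ⟨a, ha, rfl⟩ := mem_toZFSet_iff.1 hzy
    rw [toZFSet_mem_toZFSet_iff] at *
    exact hxz.trans ha
  refine ⟨⟨?_, ?_, ?_, ?_⟩, ⟨?_, ?_⟩, ?_, ?_, ?_⟩
  · intro z hz
    rcases ZFSet.mem_union.1 hz with hz | hz
    · exact h1.sub hz
    · exact hq.sub (ZFSet.mem_sdiff.1 hz).1
  · right
    by_cases hD : ∃ z, z ∈ q \ q0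
    · obtain ⟨z, hz⟩ := hD
      rcases hq.mx with hq0 | ⟨d, hd, hdm⟩
      · rw [hq0] at hz
        exact absurd (ZFSet.mem_sdiff.1 hz).1 (ZFSet.notMem_empty _)
      · have hxd : x.toZFSet ∈ d := by
          rcases hdm z (ZFSet.mem_sdiff.1 hz).1 with h | rfl
          · exact htrans z d (hq.sub hd) (K z hz) h
          · exact K z hz
        refine ⟨d, ZFSet.mem_union.2 (Or.inr (ZFSet.mem_sdiff.2 ⟨hd, big0 d hxd⟩)), fun w hw => ?_⟩
        rcases ZFSet.mem_union.1 hw with hw | hw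
        · left
          obtain ⟨b, hb, rfl⟩ := pa_ord hq.sub hd
          rcases hy1 w hw with h | rfl
          · obtain ⟨a, ha, rfl⟩ := mem_toZFSet_iff.1 h
            rw [toZFSet_mem_toZFSet_iff] at *
            exact ha.trans hxd
          · exact hxd
        · exact hdm w (ZFSet.mem_sdiff.1 hw).1
    · refine ⟨x.toZFSet, ZFSet.mem_union.2 (Or.inl hx1), fun w hw => ?_⟩
      rcases ZFSet.mem_union.1 hw with hw | hw
      · exact hy1 w hw
      · exact absurd ⟨w, hw⟩ hD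
  · intro d hd hd0 hw
    obtain ⟨b, hb, rfl⟩ := mem_toZFSet_iff.1 hd
    have hlow : b.toZFSet ∈ x.toZFSet → b.toZFSet ∈ q1 := by
      intro hbx
      refine h1.cl _ hd hd0 fun z hz => ?_
      obtain ⟨y, hyq, hzy, hyd⟩ := hw z hz
      rcases ZFSet.mem_union.1 hyq with hyq | hyq
      · exact ⟨y, hyq, hzy, hyd⟩
      · have := K y hyq
        exact absurd (htrans y b.toZFSet hd this hyd) (irr _ _ hbx)
    rcases pa_tri x b with h | h | h
    · have hdq : b.toZFSet ∈ q := by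
        refine hq.cl _ hd hd0 fun z hz => ?_
        obtain ⟨a, ha, rfl⟩ := mem_toZFSet_iff.1 hz
        have hm : (max a x).toZFSet ∈ b.toZFSet := by
          rw [toZFSet_mem_toZFSet_iff] at *
          exact max_lt ha h
        obtain ⟨y, hyq, hzy, hyd⟩ := hw _ hm
        obtain ⟨c, hc, rfl⟩ := mem_toZFSet_iff.1 hyd
        rw [toZFSet_mem_toZFSet_iff] at hzy
        have hxc : x.toZFSet ∈ c.toZFSet :=
          toZFSet_mem_toZFSet_iff.2 (lt_of_le_of_lt (le_max_right _ _) hzy)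
        rcases ZFSet.mem_union.1 hyq with hyq | hyq
        · exact absurd hyq (big1 _ hxc)
        · exact ⟨c.toZFSet, (ZFSet.mem_sdiff.1 hyq).1,
            toZFSet_mem_toZFSet_iff.2 (lt_of_le_of_lt (le_max_left _ _) hzy), hyd⟩
      exact ZFSet.mem_union.2 (Or.inr (ZFSet.mem_sdiff.2 ⟨hdq, big0 _ h⟩))
    · exact ZFSet.mem_union.2 (Or.inl (h ▸ hx1))
    · exact ZFSet.mem_union.2 (Or.inl (hlow h))
  · intro z hz
    rcases ZFSet.mem_union.1 hz with hz | hz
    · exact h1.dj z hz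
    · exact hq.dj z (ZFSet.mem_sdiff.1 hz).1
  · intro z hz
    exact ZFSet.mem_union.2 (Or.inl hz)
  · intro z hz y hy hzy
    rcases ZFSet.mem_union.1 hz with hz | hz
    · exact hz
    · exact absurd hy (big1 y (htrans z y (h1.sub hy) (K z hz) hzy))
  · ext z
    rw [ZFSet.mem_sdiff, ZFSet.mem_union]
    constructor
    · rintro ⟨h | h, h'⟩
      · exact absurd h h'
      · exact h
    · intro h
      exact ⟨Or.inr h, big1 z (K z h)⟩
  · ext z
    rw [ZFSet.mem_union, ZFSet.mem_sdiff]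
    constructor
    · rintro (h | h)
      · exact he.1 h
      · exact h.1
    · intro h
      by_cases h' : z ∈ q0
      · exact Or.inl h'
      · exact Or.inr ⟨h, h'⟩
  · intro q' hq' he'
    have K' := key q' hq' he'
    constructor
    · intro hE
      refine ⟨fun z hz => ?_, fun z hz y hy hzy => ?_⟩
      · rcases ZFSet.mem_union.1 hz with hz | hz
        · exact ZFSet.mem_union.2 (Or.inl hz)
        · rw [ZFSet.mem_sdiff] at hz
          exact ZFSet.mem_union.2 (Or.inr (ZFSet.mem_sdiff.2 ⟨hE.1 hz.1, hz.2⟩))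
      · rcases ZFSet.mem_union.1 hz with hz | hz
        · exact ZFSet.mem_union.2 (Or.inl hz)
        · have hyq' : y ∈ q' := by
            rcases ZFSet.mem_union.1 hy with hy | hy
            · exact absurd hy (big1 y (htrans z y (h1.sub hy) (K z hz) hzy))
            · exact (ZFSet.mem_sdiff.1 hy).1
          rw [ZFSet.mem_sdiff] at hz
          exact ZFSet.mem_union.2 (Or.inr (ZFSet.mem_sdiff.2 ⟨hE.2 z hz.1 y hyq' hzy, hz.2⟩))
    · intro hE
      refine ⟨fun y hy => ?_, fun z hz y hy hzy => ?_⟩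
      · by_cases hy0' : y ∈ q0
        · exact he.1 hy0'
        · have hyD : y ∈ q' \ q0 := ZFSet.mem_sdiff.2 ⟨hy, hy0'⟩
          rcases ZFSet.mem_union.1 (hE.1 (ZFSet.mem_union.2 (Or.inr hyD))) with h | h
          · exact absurd h (big1 y (K' y hyD))
          · exact (ZFSet.mem_sdiff.1 h).1
      · by_cases hz0 : z ∈ q0
        · exact he'.1 hz0
        · have hzD : z ∈ q \ q0 := ZFSet.mem_sdiff.2 ⟨hz, hz0⟩
          have hxy : x.toZFSet ∈ y := htrans z y (hq'.sub hy) (K z hzD) hzy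
          have hyD : y ∈ q' \ q0 := ZFSet.mem_sdiff.2 ⟨hy, big0 y hxy⟩
          rcases ZFSet.mem_union.1 (hE.2 z (ZFSet.mem_union.2 (Or.inr hzD)) y
            (ZFSet.mem_union.2 (Or.inr hyD)) hzy) with h | h
          · exact absurd h (big1 z (K z hzD))
          · exact (ZFSet.mem_sdiff.1 h).1

theorem pf_PA : T_PA := by
  refine ⟨fun q => ⟨fun _ h => h, fun x hx _ _ _ => hx⟩,
    fun a b c h h' => ⟨fun _ hz => h.1 (h'.1 hz), fun x hx y hy hxy =>
      h'.2 x (h.2 x hx y (h'.1 hy) hxy) y hy hxy⟩,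
    fun q => ⟨fun z hz => absurd hz (ZFSet.notMem_empty _),
      fun x hx y hy _ => absurd hy (ZFSet.notMem_empty _)⟩,
    fun a b h h' => ?_, pa_tree, pa_ins, pa_swap⟩
  ext z
  exact ⟨fun hz => h'.1 hz, fun hz => h.1 hz⟩

end CAA
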